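import Pool.Agent.WIR.StmtsB

/-!
# WIR, row DVB: basic facts on the walk `Dv`
-/

namespace Pool.Agent.WIR.H23

open scoped BigOperators

theorem kh_zero (B l : ℕ) : Kh B (fun _ => 0) l = 0 := by
  unfold Kh
  simp

theorem kh_mul (B : ℕ) (f : ℕ → ℝ) (c : ℝ) (l : ℕ) :
    Kh B (fun x => f x * c) l = Kh B f l * c := by
  unfold Kh
  rw [Finset.sum_mul]
  refine Finset.sum_congr rfl (fun x _ => ?_)
  ring

theorem fac_mem {d : ℝ} (h0 : 0 ≤ d) (h1 : d ≤ 1) (p : Prop) [Decidable p] :
    0 ≤ (if p then 1 - d else (1 : ℝ)) ∧ (if p then 1 - d else (1 : ℝ)) ≤ 1 := by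
  by_cases hp : p
  · rw [if_pos hp]
    constructor <;> linarith
  · rw [if_neg hp]
    constructor <;> norm_num

/-- **DVB** -/
theorem dvb (mon : MonStmt) : DvbStmt := by
  classical
  obtain ⟨mono, -, mass, supp⟩ := mon
  intro B d b h0 h1
  have hfac := fun (p : Prop) [Decidable p] => fac_mem (d := d) h0 h1 p
  have hA : ∀ k j l, 0 ≤ Dv B d b k j l ∧ Dv B d b k j l ≤ 1 := by
    intro k
    induction k with
    | zero =>
      intro j l
      unfold Dv
      split_ifs <;> constructor <;> norm_num
    | succ k ih =>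
      intro j l
      have e : Dv B d b (k + 1) j l = Kh B (fun x => (if x = l + 3 ∧ ¬ b (j + 1) x then 1 - d else 1)
          * Dv B d b k (j + 1) x) l := rfl
      rw [e]
      constructor
      · rw [← kh_zero B l]
        refine (mono B _ _ l (fun x _ _ => ?_)).2
        exact mul_nonneg (hfac _).1 (ih (j + 1) x).1
      · refine le_trans ?_ (mass B 1 l zero_le_one).2
        refine (mono B _ _ l (fun x _ _ => ?_)).2
        have h2 := hfac (x = l + 3 ∧ ¬ b (j + 1) x)
        have h3 := ih (j + 1) x
        exact mul_le_one₀ h2.2 h3.1 h3.2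
  have hB : ∀ k j l, B < l → Dv B d b k j l = 0 := by
    intro k j l hl
    cases k with
    | zero =>
      unfold Dv
      rw [if_neg (by omega)]
    | succ k =>
      exact (supp B _ l hl.le).2
  refine ⟨hA, hB, ?_, ?_⟩
  · intro k j l
    have e : Dv B d b (k + 1) j l = Kh B (fun x => (if x = l + 3 ∧ ¬ b (j + 1) x then 1 - d else 1)
        * Dv B d b k (j + 1) x) l := rfl
    rw [e]
    refine (mono B _ _ l (fun x _ _ => ?_)).2
    have h2 := hfac (x = l + 3 ∧ ¬ b (j + 1) x)
    exact mul_le_of_le_one_left (hA k (j + 1) x).1 h2.2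
  · intro P
    induction P with
    | zero =>
      intro m j Y hY hx l
      rw [Nat.zero_add]
      by_cases hl : l ≤ B
      · have e : Dv B d b 0 j l = 1 := by
          unfold Dv
          rw [if_pos hl]
        rw [e, one_mul]
        exact hx l
      · rw [hB m j l (by omega), hB 0 j l (by omega), zero_mul]
    | succ P ih =>
      intro m j Y hY hx l
      have e1 : P + 1 + m = (P + m) + 1 := by omega
      rw [e1]
      have e : ∀ k, Dv B d b (k + 1) j l =
          Kh B (fun x => (if x = l + 3 ∧ ¬ b (j + 1) x then 1 - d else 1)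
            * Dv B d b k (j + 1) x) l := fun _ => rfl
      rw [e (P + m), e P, ← kh_mul]
      refine (mono B _ _ l (fun x _ _ => ?_)).2
      have h2 := hfac (x = l + 3 ∧ ¬ b (j + 1) x)
      have h3 := ih m (j + 1) Y hY (fun x => by
        have h4 : j + 1 + P = j + (P + 1) := by omega
        rw [h4]
        exact hx x) x
      rw [mul_assoc]
      exact mul_le_mul_of_nonneg_left h3 h2.1

end Pool.Agent.WIR.H23
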